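import Pool.Agent.Helper38.GP.Stmt

/-! The example: the union of four quadratic cones, of codimension `2`. -/

namespace Pool.Agent.Helper49.R2

open MvPowerSeries Pool.Agent.Helper38.EQ Pool.Agent.Helper38.GP

/-- The four polynomials `h_m = a_m x y + A_m x ^ 4`; the coordinates are `z = X 0`, `x = X 1`,
`y = X 2`, `t = X 3`. -/
noncomputable def exH (K : Type) [Field K] : Fin 4 → MvPowerSeries (Fin 4) K :=
  ![X 1 * X 2 + X 1 ^ 4, 2 * X 1 * X 2 + X 1 ^ 4,
    3 * X 1 * X 2 + ((1 + X 3) ^ 2 - 3) * X 1 ^ 4,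
    5 * X 1 * X 2 + ((1 + X 3) ^ 2 - 5) * X 1 ^ 4]

/-- The equation of `V`: the product of the four polynomials `z ^ 2 - h_m`. -/
noncomputable def exF (K : Type) [Field K] : MvPowerSeries (Fin 4) K :=
  ∏ i, (X 0 ^ 2 - exH K i)

/-- The ideal of `W`: the line `z = x = y = 0`. -/
noncomputable def exI (K : Type) [Field K] : Ideal (MvPowerSeries (Fin 4) K) :=
  Ideal.span {X 0, X 1, X 2}

end Pool.Agent.Helper49.R2
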