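import Pool.Agent.Helper38.GP.CurveA
import Pool.Agent.Helper38.EQ.Discr

/-! Images of singular surfaces are components of the critical variety. -/

namespace Pool.Agent.Helper49.R2

open MvPowerSeries Pool.Agent.Helper38.EQ Pool.Agent.Helper38.GP
open Pool.Agent.Helper38.ED (LI LI_iff prime_of_notMem_sq)

theorem discr_mem {R : Type} [CommRing R] (F : Polynomial R) (hF : F.Monic) (J : Ideal R) (r : R)
    (h0 : F.eval r ∈ J) (h1 : F.derivative.eval r ∈ J) : F.discr ∈ J := by
  rcases Nat.eq_zero_or_pos F.natDegree with h | h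
  · have h2 := Polynomial.eq_one_of_monic_natDegree_zero hF h
    rw [h2, Polynomial.eval_one] at h0
    rw [(Ideal.eq_top_iff_one J).2 h0]
    exact Submodule.mem_top
  · obtain ⟨p, q, -, -, e⟩ := Polynomial.exists_mul_add_mul_eq_C_resultant F F.derivative
      (m := F.natDegree) (n := F.natDegree - 1) le_rfl (Polynomial.natDegree_derivative_le F)
      (Or.inl h.ne')
    rw [discr_resultant F hF h]
    apply Ideal.mul_mem_left
    have h2 := congrArg (Polynomial.eval r) e
    rw [Polynomial.eval_add, Polynomial.eval_mul, Polynomial.eval_mul, Polynomial.eval_C] at h2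
    rw [← h2]
    exact J.add_mem (J.mul_mem_right _ h0) (J.mul_mem_right _ h1)

variable {n : ℕ} {K : Type} [Field K] {p : Proj n K} {e : MvPowerSeries (Fin (n + 1)) K}

theorem ε_coe (s : Sec p e) (F : Polynomial (R1 n K)) :
    s.ε (F : PowerSeries (R1 n K)) = F.eval s.r := by
  induction F using Polynomial.induction_on' with
  | add p q hp hq => rw [Polynomial.coe_add, map_add, hp, hq, Polynomial.eval_add]
  | monomial n a =>
    rw [← Polynomial.C_mul_X_pow_eq_monomial, Polynomial.coe_mul, Polynomial.coe_C,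
      Polynomial.coe_pow, Polynomial.coe_X, map_mul, map_pow, s.ε_C, s.ε_X]
    simp

/-- If two factors of `f` vanish on the surface `e = w = 0`, the restriction of `w` to `e = 0`
divides the discriminant. -/
theorem dvd_discr (s : Sec p e) {w f f1 f2 f3 : MvPowerSeries (Fin (n + 1)) K}
    (hf : f = f1 * f2 * f3) (h1 : f1 ∈ Ideal.span {e, w}) (h2 : f2 ∈ Ideal.span {e, w})
    {F : Polynomial (R1 n K)} {U : PowerSeries (R1 n K)}
    (hF : (p.σ (ex f)).IsWeierstrassFactorization F U) : s.pull w ∣ F.discr := by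
  rw [← Ideal.mem_span_singleton]
  set J : Ideal (PowerSeries (R1 n K)) :=
    Ideal.span {PowerSeries.C (s.pull w), PowerSeries.X - PowerSeries.C s.r} with hJ
  have hC : PowerSeries.C (s.pull w) ∈ J := Ideal.subset_span (by simp)
  have hX : PowerSeries.X - PowerSeries.C s.r ∈ J := Ideal.subset_span (by simp)
  have he : p.σ (ex e) ∈ J := by
    rw [s.eq]
    exact J.mul_mem_left _ hX
  have hw : p.σ (ex w) ∈ J := by
    obtain ⟨q, hq⟩ := s.ε_dvd (p.σ (ex w))
    rw [hq]
    exact J.add_mem hC (J.mul_mem_right _ hX)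
  have hJs : ∀ x ∈ Ideal.span {e, w}, p.σ (ex x) ∈ J := by
    intro x hx
    obtain ⟨a, b, rfl⟩ := Ideal.mem_span_pair.1 hx
    rw [map_add, map_mul, map_mul, map_add, map_mul, map_mul]
    exact J.add_mem (J.mul_mem_left _ he) (J.mul_mem_left _ hw)
  have hε : ∀ x ∈ J, s.ε x ∈ Ideal.span {s.pull w} := by
    intro x hx
    obtain ⟨a, b, rfl⟩ := Ideal.mem_span_pair.1 hx
    rw [map_add, map_mul, map_mul, map_sub, s.ε_C, s.ε_X, s.ε_C, sub_self, mul_zero, add_zero]
    exact Ideal.mul_mem_left _ _ (Ideal.mem_span_singleton_self _)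
  obtain ⟨V, hV⟩ := hF.isUnit
  have hFe : (F : PowerSeries (R1 n K)) = p.σ (ex f1) * p.σ (ex f2) *
      (p.σ (ex f3) * (↑V⁻¹ : PowerSeries (R1 n K))) := by
    have h3 := hF.eq_mul
    rw [hf, map_mul, map_mul, map_mul, map_mul, ← hV] at h3
    calc (F : PowerSeries (R1 n K)) = F * V * (↑V⁻¹ : PowerSeries (R1 n K)) := by
          rw [mul_assoc, Units.mul_inv, mul_one]
      _ = _ := by rw [← h3]; ring
  have hx := hJs f1 h1
  have hy := hJs f2 h2
  refine discr_mem F hF.isDistinguishedAt.monic _ s.r ?_ ?_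
  · rw [← ε_coe, hFe, map_mul, map_mul]
    exact Ideal.mul_mem_right _ _ (Ideal.mul_mem_right _ _ (hε _ hx))
  · rw [← ε_coe, ← PowerSeries.derivative_coe, hFe]
    generalize p.σ (ex f1) = x1 at hx ⊢
    generalize p.σ (ex f2) = x2 at hy ⊢
    generalize p.σ (ex f3) * (↑V⁻¹ : PowerSeries (R1 n K)) = x3
    have h3 : PowerSeries.derivative (R1 n K) (x1 * x2 * x3) =
        x1 * (x2 * PowerSeries.derivative (R1 n K) x3 + x3 * PowerSeries.derivative (R1 n K) x2) +
          x2 * (x3 * PowerSeries.derivative (R1 n K) x1) := by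
      rw [Derivation.leibniz, Derivation.leibniz]
      simp only [smul_eq_mul]
      ring
    rw [h3, map_add, map_mul, map_mul]
    exact Ideal.add_mem _ (Ideal.mul_mem_right _ _ (hε _ hx)) (Ideal.mul_mem_right _ _ (hε _ hy))

/-- A prime that divides the discriminant divides its radical. -/
theorem dvd_radical {R : Type} [CommRing R] {π D g : R} (hπ : Prime π) (h : π ∣ D)
    (hg : Ideal.span {g} = (Ideal.span {D}).radical) : π ∣ g := by
  have h1 : g ∈ (Ideal.span {D}).radical := by
    rw [← hg]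
    exact Ideal.mem_span_singleton_self _
  obtain ⟨k, hk⟩ := h1
  exact hπ.dvd_of_dvd_pow (h.trans (Ideal.mem_span_singleton.1 hk))

end Pool.Agent.Helper49.R2
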