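import Pool.Agent.Helper49.R2.Neg
import Pool.Agent.Helper38.GP.Final
import Pool.Agent.Helper38.GQ.Props
import Pool.Agent.Helper85.R2.Gen
import Pool.Agent.Helper85.R2.Good

/-! Everything except the positive part. -/

namespace Pool.Agent.Helper49.R2

open MvPowerSeries Pool.Agent.Helper38.EQ
open Pool.Agent.Helper38.GP hiding exF exI neg_ex generic_ex good_proj_ex

/-- For almost all convergent projections: not equisingular. -/
theorem generic_ex (G : MvPolynomial (Fin 3 × {ν : Fin 4 →₀ ℕ // ν ≠ 0}) ℂ) (hG : G ≠ 0) :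
    ∃ z : Fin 3 → MvPowerSeries (Fin 4) ℂ,
      (∀ i, IsConvergent (z i) ∧ constantCoeff (z i) = 0) ∧
      MvPolynomial.eval (fun p => coeff p.2.1 (z p.1)) G ≠ 0 ∧
      IsParams (exF ℂ) z ∧ Permissible (exI ℂ) z ∧ Transversal (exF ℂ) z ∧
      ¬ EquiProj (Formal ℂ) 1 (exF ℂ) (exI ℂ) z ∧
      ¬ EquiProj Convergent 1 (exF ℂ) (exI ℂ) z := by
  obtain ⟨z, v, h1, h2, h3, h4, h5, h6, h10⟩ := Pool.Agent.Helper85.R2.exists_generic_ex G hG
  obtain ⟨h7, h8, h9⟩ := Pool.Agent.Helper85.R2.good_proj_ex z h3 h4 h5 h10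
  exact ⟨z, h1, h2, h7, h8, h9, neg_ex z h4 h5 h6, neg_ex z h4 h5 h6⟩

end Pool.Agent.Helper49.R2
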