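import Pool.Agent.Helper49.R2.Star3
import Pool.Agent.Helper49.R2.DvdDiscr
import Pool.Agent.Helper49.R2.Example

/-! The projections with a direction that has nonzero components `0` and `2` are not
equisingular. -/

namespace Pool.Agent.Helper49.R2

open MvPowerSeries Pool.Agent.Helper38.EQ Pool.Agent.Helper38.GP
open Pool.Agent.Helper38.ED (LI LI_iff prime_of_notMem_sq isUnit_one_add)

private theorem Neg_ker {n : ℕ} {K : Type} [Field K] (A : Fin n → Fin (n + 1) → K)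
    (hA : LinearIndependent K A) {u v : Fin (n + 1) → K} (hu : ∀ i, ∑ j, A i j * u j = 0)
    (hv : ∀ i, ∑ j, A i j * v j = 0) (hu0 : u ≠ 0) (hv0 : v ≠ 0) : ∃ c : K, c ≠ 0 ∧ u = c • v := by
  have h1 : (Matrix.of A).rank = n := by
    have h2 := LinearIndependent.rank_matrix (M := Matrix.of A) hA
    rwa [Fintype.card_fin] at h2
  have h2 := LinearMap.finrank_range_add_finrank_ker (Matrix.of A).mulVecLin
  rw [← Matrix.rank, h1, Module.finrank_fintype_fun_eq_card, Fintype.card_fin] at h2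
  have h3 : Module.finrank K (LinearMap.ker (Matrix.of A).mulVecLin) = 1 := by omega
  have hvk : v ∈ LinearMap.ker (Matrix.of A).mulVecLin := by
    rw [LinearMap.mem_ker]
    funext i
    exact hv i
  have huk : u ∈ LinearMap.ker (Matrix.of A).mulVecLin := by
    rw [LinearMap.mem_ker]
    funext i
    exact hu i
  obtain ⟨c, hc⟩ := (finrank_eq_one_iff_of_nonzero' (⟨v, hvk⟩ : LinearMap.ker
    (Matrix.of A).mulVecLin) (by
      intro h
      apply hv0
      exact congrArg Subtype.val h)).mp h3 ⟨u, huk⟩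
  have hc' : c • v = u := congrArg Subtype.val hc
  refine ⟨c, ?_, hc'.symm⟩
  rintro rfl
  rw [zero_smul] at hc'
  exact hu0 hc'.symm

private theorem Neg_tr_mul {n : ℕ} {K : Type} [Field K] (p : Proj n K)
    (h k : MvPowerSeries (Fin (n + 1)) K) :
    p.tr (h * k) = constantCoeff (PowerSeries.coeff 0 (p.σ h)) * p.tr k +
      p.tr h * constantCoeff (PowerSeries.coeff 0 (p.σ k)) := by
  unfold Proj.tr
  rw [map_mul, PowerSeries.coeff_mul,
    show Finset.HasAntidiagonal.antidiagonal 1 = {((0 : ℕ), (1 : ℕ)), (1, 0)} from rfl,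
    Finset.sum_pair (by decide), map_add, map_mul, map_mul]

private theorem Neg_cc {n : ℕ} {K : Type} [Field K] (p : Proj n K)
    (x : MvPowerSeries (Fin (n + 1)) K)
    (hx : x ∈ IsLocalRing.maximalIdeal (MvPowerSeries (Fin (n + 1)) K)) :
    constantCoeff (PowerSeries.coeff 0 (p.σ x)) = 0 := by
  by_contra hcon
  have h1 : IsUnit (p.σ x) := by
    rw [PowerSeries.isUnit_iff_constantCoeff, MvPowerSeries.isUnit_iff_constantCoeff]
    rw [PowerSeries.coeff_zero_eq_constantCoeff_apply] at hcon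
    exact isUnit_iff_ne_zero.mpr hcon
  have h2 := h1.map p.σ.symm
  rw [AlgEquiv.symm_apply_apply] at h2
  exact (IsLocalRing.mem_maximalIdeal _).mp hx h2

private theorem Neg_X_mem {n : ℕ} {K : Type} [Field K] (i : Fin n) :
    (X i : MvPowerSeries (Fin n) K) ∈ IsLocalRing.maximalIdeal (MvPowerSeries (Fin n) K) := by
  rw [mem_maximalIdeal_iff_constantCoeff, constantCoeff_X]

private theorem Neg_dir {n : ℕ} {K : Type} [Field K] (p : Proj n K)
    {z : Fin n → MvPowerSeries (Fin (n + 1)) K} (hz : LinIndep z)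
    (hσz : ∀ i, p.σ (z i) = PowerSeries.C (X i)) {v : Fin (n + 1) → K}
    (hv : ∀ i, lin (z i) v = 0) {j : Fin (n + 1)} (hj : v j ≠ 0) :
    ∀ k, v k ≠ 0 → p.tr (X k) ≠ 0 := by
  have htrz : ∀ i, lin (z i) (fun j => p.tr (X j)) = 0 := by
    intro i
    rw [← p.tr_eq_lin, Proj.tr, hσz, PowerSeries.coeff_C, if_neg one_ne_zero, map_zero]
  have hu0 : (fun j => p.tr (X j)) ≠ 0 := by
    intro h0
    have h1 : p.tr (p.σ.symm PowerSeries.X) = 1 := by
      rw [Proj.tr, AlgEquiv.apply_symm_apply, PowerSeries.coeff_X, if_pos rfl, map_one]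
    rw [p.tr_eq_lin, h0, lin] at h1
    simp at h1
  have hvne : v ≠ 0 := by
    rintro rfl
    exact hj rfl
  obtain ⟨c, hc, huc⟩ := Neg_ker _ hz.2 htrz hv hu0 hvne
  intro k hk
  have h1 : p.tr (X k) = c * v k := congrFun huc k
  rw [h1]
  exact mul_ne_zero hc hk


/-- The value of `q` at any section is a unit. -/
private theorem Neg_unit {n : ℕ} {K : Type} [Field K] {p : Proj n K}
    {e e' x : MvPowerSeries (Fin (n + 1)) K} (s : Sec p e) (s' : Sec p e')
    {q : PowerSeries (R1 n K)}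
    (hx : p.σ (ex x) = PowerSeries.C (s.pull x) + (PowerSeries.X - PowerSeries.C s.r) * q)
    (ht : p.tr x ≠ 0) : IsUnit (s'.ε q) := by
  have hr0 : constantCoeff s.r = 0 := (mem_maximalIdeal_iff_constantCoeff _).mp s.r_mem
  have hq1 : PowerSeries.coeff 1 (PowerSeries.X * q) = PowerSeries.constantCoeff q := by
    have := PowerSeries.coeff_succ_X_mul 0 q
    rwa [PowerSeries.coeff_zero_eq_constantCoeff_apply] at this
  have h2 : PowerSeries.coeff 1 (p.σ x) =
      PowerSeries.constantCoeff q - s.r * PowerSeries.coeff 1 q := by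
    rw [← ex_eq x, hx, map_add, PowerSeries.coeff_C, if_neg one_ne_zero, zero_add,
      sub_mul, map_sub, PowerSeries.coeff_C_mul, hq1]
  have h1 : p.tr x = constantCoeff (PowerSeries.constantCoeff q) := by
    rw [Proj.tr, h2, map_sub, map_mul, hr0, zero_mul, sub_zero]
  apply s'.ε_unit
  rw [PowerSeries.isUnit_iff_constantCoeff, MvPowerSeries.isUnit_iff_constantCoeff, ← h1]
  exact isUnit_iff_ne_zero.mpr ht

private theorem Neg_trsub {n : ℕ} {K : Type} [Field K] (p : Proj n K)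
    (i j : Fin (n + 1)) (m : MvPowerSeries (Fin (n + 1)) K) :
    p.tr (X i - m * X j ^ 2) = p.tr (X i) := by
  have h1 : p.tr (m * X j ^ 2) = 0 := by
    rw [pow_two, ← mul_assoc, Neg_tr_mul, Neg_cc p _ (Neg_X_mem j),
      Neg_cc p _ (Ideal.mul_mem_left _ _ (Neg_X_mem j)), zero_mul, mul_zero, add_zero]
  have h2 := p.tr_add (X i - m * X j ^ 2) (m * X j ^ 2)
  rw [sub_add_cancel, h1, add_zero] at h2
  exact h2.symm

private theorem Neg_mem_max {n : ℕ} {K : Type} [Field K]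
    (i j : Fin (n + 1)) (m : MvPowerSeries (Fin (n + 1)) K) :
    X i - m * X j ^ 2 ∈ IsLocalRing.maximalIdeal (MvPowerSeries (Fin (n + 1)) K) :=
  Ideal.sub_mem _ (Neg_X_mem i)
    (Ideal.mul_mem_left _ _ (Ideal.pow_mem_of_mem _ (Neg_X_mem j) _ (by norm_num)))

private theorem Neg_mem {K : Type} [Field K] (i : Fin 4) (hi : i ≠ 3) :
    (X i : MvPowerSeries (Fin 4) K) ∈ exI K := by
  rw [exI]
  apply Ideal.subset_span
  fin_cases i
  · exact Or.inl rfl
  · exact Or.inr (Or.inl rfl)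
  · exact Or.inr (Or.inr rfl)
  · exact absurd rfl hi

private theorem Neg_notMem {K : Type} [Field K] :
    (X 3 : MvPowerSeries (Fin 4) K) ∉ exI K := by
  obtain ⟨γ, hγ, -⟩ := exists_monomial_arc (K := K) (n := 4)
    (fun i => if i = 3 then 1 else 0) (fun _ => 1) (fun _ => le_refl 1)
  have h1 : exI K ≤ RingHom.ker γ := by
    rw [exI, Ideal.span_le]
    intro x hx
    rw [SetLike.mem_coe, RingHom.mem_ker]
    simp only [Set.mem_insert_iff, Set.mem_singleton_iff] at hx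
    rcases hx with rfl | rfl | rfl <;>
      · rw [hγ, if_neg (by decide), map_zero, zero_mul]
  intro h2
  have h3 := h1 h2
  rw [RingHom.mem_ker, hγ, if_pos rfl, map_one, one_mul, pow_one] at h3
  exact PowerSeries.X_ne_zero h3

private theorem Neg_LI_X {n : ℕ} {K : Type} [Field K] :
    LI (fun i : Fin n => (X i : MvPowerSeries (Fin n) K)) := by
  classical
  refine ⟨fun i => constantCoeff_X i, ?_⟩
  rw [Fintype.linearIndependent_iff]
  intro g hg i
  have h1 := congrFun hg i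
  rw [Finset.sum_apply, Finset.sum_eq_single i] at h1
  · simpa [coeff_X] using h1
  · intro j _ hj
    rw [Pi.smul_apply, coeff_X, if_neg, smul_zero]
    intro h2
    exact hj (Finsupp.single_left_injective one_ne_zero h2).symm
  · intro h2
    exact absurd (Finset.mem_univ i) h2

private theorem Neg_LI {K : Type} [Field K] {p : Proj 3 K} {m : MvPowerSeries (Fin 4) K}
    (s : Sec p (X 0 - m * X 1 ^ 2)) : LI ![s.pull (X 1), s.pull (X 2), s.pull (X 3)] := by
  have h1 : LI (Fin.cons (X 0 - m * X 1 ^ 2) ![X 1, X 2, X 3] :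
      Fin 4 → MvPowerSeries (Fin 4) K) := by
    refine Neg_LI_X.of_span (fun i => ?_) (fun i => ?_)
    · fin_cases i
      · exact Neg_mem_max 0 1 m
      · exact Neg_X_mem 1
      · exact Neg_X_mem 2
      · exact Neg_X_mem 3
    · set S := Ideal.span (Set.range (Fin.cons (X 0 - m * X 1 ^ 2) ![X 1, X 2, X 3] :
        Fin 4 → MvPowerSeries (Fin 4) K)) with hS
      have e0 : X 0 - m * X 1 ^ 2 ∈ S := Ideal.subset_span ⟨0, rfl⟩
      have e1 : X 1 ∈ S := Ideal.subset_span ⟨1, rfl⟩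
      have e2 : X 2 ∈ S := Ideal.subset_span ⟨2, rfl⟩
      have e3 : X 3 ∈ S := Ideal.subset_span ⟨3, rfl⟩
      fin_cases i
      · have h2 : (X 0 : MvPowerSeries (Fin 4) K) = X 0 - m * X 1 ^ 2 + m * X 1 * X 1 := by ring
        change (X 0 : MvPowerSeries (Fin 4) K) ∈ S
        rw [h2]
        exact S.add_mem e0 (S.mul_mem_left _ e1)
      · exact e1
      · exact e2
      · exact e3
  have h2 := s.LI_pull ![X 1, X 2, X 3] h1
  have h3 : (fun i => s.pull ((![X 1, X 2, X 3] : Fin 3 → MvPowerSeries (Fin 4) K) i)) =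
      ![s.pull (X 1), s.pull (X 2), s.pull (X 3)] := by
    funext i
    fin_cases i <;> rfl
  rwa [h3] at h2

/-- The main computation. With `a, b, τ` the restrictions of `x, y, t` to `z = x ^ 2`: the
restriction of `x` to `z = 0` is a unit times `a`, and the restriction of `y - x ^ 3` to
`z = (1 + t) x ^ 2` is `b + a ^ 2 (c τ + u a)`, with a unit `c`. -/
private theorem Neg_calc {K : Type} [Field K] (p : Proj 3 K) (h2 : p.tr (X 2) ≠ 0)
    (s0 : Sec p (X 0)) (sP : Sec p (X 0 - 1 * X 1 ^ 2)) (sQ : Sec p (X 0 - (1 + X 3) * X 1 ^ 2)) :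
    Associated (s0.pull (X 1)) (sP.pull (X 1)) ∧
    ∃ c u : R1 3 K, IsUnit c ∧ sQ.pull (X 2 - X 1 ^ 3) =
      sP.pull (X 2) + sP.pull (X 1) ^ 2 * (c * sP.pull (X 3) + u * sP.pull (X 1)) := by
  have hz : sP.pull (X 0) = sP.pull (X 1) ^ 2 := by
    have h := sP.pull_self
    rw [map_sub, map_mul, map_pow, map_one] at h
    linear_combination h
  have hm : sP.pull (X 1) ∈ IsLocalRing.maximalIdeal (R1 3 K) := sP.pull_mem (Neg_X_mem 1)
  constructor
  · have h1 : sP.pull (X 1) ^ 2 ∣ sP.pull (X 1) - s0.pull (X 1) := by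
      rw [← hz]
      exact (sP.assoc s0).dvd.trans (s0.pull_sub_dvd sP (X 1))
    obtain ⟨k, hk⟩ := h1
    have hu : IsUnit (1 + sP.pull (X 1) * (-k)) :=
      isUnit_one_add (K := K) (Ideal.mul_mem_right _ _ hm)
    have h3 : s0.pull (X 1) = sP.pull (X 1) * (1 + sP.pull (X 1) * (-k)) := by
      linear_combination -hk
    rw [h3]
    exact associated_mul_unit_left _ _ hu
  · obtain ⟨V, hV⟩ := sP.ε_unit sQ.isUnit
    have hr : (V : R1 3 K) * (sQ.r - sP.r) = sP.pull (X 3) * sP.pull (X 1) ^ 2 := by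
      have h3 := sP.pull_eq sQ
      rw [← hV, map_sub, map_mul, map_add, map_one, map_pow, hz] at h3
      linear_combination h3
    have hr' : sQ.r - sP.r = (↑V⁻¹ : R1 3 K) * (sP.pull (X 3) * sP.pull (X 1) ^ 2) := by
      have h4 : (↑V⁻¹ : R1 3 K) * V = 1 := Units.inv_mul V
      linear_combination (-(sQ.r - sP.r)) * h4 + (↑V⁻¹ : R1 3 K) * hr
    obtain ⟨q1, hq1⟩ := sP.ε_dvd (p.σ (ex (X 1)))
    obtain ⟨q2, hq2⟩ := sP.ε_dvd (p.σ (ex (X 2)))
    have e1 : sQ.pull (X 1) = sP.pull (X 1) + (sQ.r - sP.r) * sQ.ε q1 := Sec.ev_eq sP sQ hq1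
    have e2 : sQ.pull (X 2) = sP.pull (X 2) + (sQ.r - sP.r) * sQ.ε q2 := Sec.ev_eq sP sQ hq2
    have hy : IsUnit (sQ.ε q2) := Neg_unit sP sQ hq2 h2
    refine ⟨(↑V⁻¹ : R1 3 K) * sQ.ε q2,
      -(1 + (↑V⁻¹ : R1 3 K) * sP.pull (X 3) * sP.pull (X 1) * sQ.ε q1) ^ 3,
      (Units.isUnit _).mul hy, ?_⟩
    rw [map_sub, map_pow, e1, e2, hr']
    ring

/-- The end of the proof. -/
private theorem Neg_main {K : Type} [Field K] [IsAlgClosed K] [CharZero K] {𝒞 : ProjClass K}
    (p : Proj 3 K) (h0 : p.tr (X 0) ≠ 0) (h2 : p.tr (X 2) ≠ 0)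
    {F : Polynomial (R1 3 K)} {U : PowerSeries (R1 3 K)}
    (hU : (p.σ (ex (exF K))).IsWeierstrassFactorization F U) {g : R1 3 K}
    (hg : Ideal.span {g} = (Ideal.span {F.discr}).radical)
    (hE : Equi 𝒞 1 3 g (p.img (exI K))) : False := by
  have s0 : Sec p (X 0) := (exists_sec p _ (Neg_X_mem 0) h0).some
  have sP : Sec p (X 0 - 1 * X 1 ^ 2) :=
    (exists_sec p _ (Neg_mem_max 0 1 1) (by rw [Neg_trsub]; exact h0)).some
  have sQ : Sec p (X 0 - (1 + X 3) * X 1 ^ 2) :=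
    (exists_sec p _ (Neg_mem_max 0 1 _) (by rw [Neg_trsub]; exact h0)).some
  obtain ⟨hass, c, u, hc, hQ⟩ := Neg_calc p h2 s0 sP sQ
  have hLI := Neg_LI sP
  set a := sP.pull (X 1) with ha
  set b := sP.pull (X 2) with hb
  set τ := sP.pull (X 3) with hτ
  have hma : a ∈ IsLocalRing.maximalIdeal (R1 3 K) := hLI.mem 0
  have hmb : b ∈ IsLocalRing.maximalIdeal (R1 3 K) := hLI.mem 1
  have hmτ : τ ∈ IsLocalRing.maximalIdeal (R1 3 K) := hLI.mem 2
  have hme : c * τ + u * a ∈ IsLocalRing.maximalIdeal (R1 3 K) :=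
    Ideal.add_mem _ (Ideal.mul_mem_left _ _ hmτ) (Ideal.mul_mem_left _ _ hma)
  have hpa : Prime a := prime_of_notMem_sq hma (hLI.notMem_sq 0)
  have hpb : Prime b := prime_of_notMem_sq hmb (hLI.notMem_sq 1)
  have hsq : a ^ 2 * (c * τ + u * a) ∈ IsLocalRing.maximalIdeal (R1 3 K) ^ 2 :=
    Ideal.mul_mem_right _ _ (Ideal.pow_mem_pow hma 2)
  have hpc : Prime (b + a ^ 2 * (c * τ + u * a)) := by
    refine prime_of_notMem_sq (Ideal.add_mem _ hmb (Ideal.pow_le_self two_ne_zero hsq)) ?_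
    intro h3
    exact hLI.notMem_sq 1 ((Ideal.add_mem_iff_left _ hsq).1 h3)
  -- the three components
  have hF : exF K = (X 0 ^ 2 - exH K 0) * (X 0 ^ 2 - exH K 1) *
      ((X 0 ^ 2 - exH K 2) * (X 0 ^ 2 - exH K 3)) := by
    rw [exF, Fin.prod_univ_four]
    ring
  have hF' : exF K = (X 0 ^ 2 - exH K 2) * (X 0 ^ 2 - exH K 3) *
      ((X 0 ^ 2 - exH K 0) * (X 0 ^ 2 - exH K 1)) := by
    rw [hF]
    ring
  have d0 : s0.pull (X 1) ∣ F.discr := by
    refine dvd_discr s0 hF ?_ ?_ hU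
    · exact Ideal.mem_span_pair.2 ⟨X 0, -(X 2 + X 1 ^ 3), by simp only [exH]; simp; ring⟩
    · exact Ideal.mem_span_pair.2 ⟨X 0, -(2 * X 2 + X 1 ^ 3), by simp only [exH]; simp; ring⟩
  have d1 : b ∣ F.discr := by
    refine dvd_discr sP hF ?_ ?_ hU
    · exact Ideal.mem_span_pair.2 ⟨X 0 + X 1 ^ 2, -X 1, by simp only [exH]; simp; ring⟩
    · exact Ideal.mem_span_pair.2 ⟨X 0 + X 1 ^ 2, -(2 * X 1), by simp only [exH]; simp; ring⟩
  have d2 : b + a ^ 2 * (c * τ + u * a) ∣ F.discr := by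
    rw [← hQ]
    refine dvd_discr sQ hF' ?_ ?_ hU
    · exact Ideal.mem_span_pair.2 ⟨X 0 + (1 + X 3) * X 1 ^ 2, -(3 * X 1),
        by simp only [exH]; simp; ring⟩
    · exact Ideal.mem_span_pair.2 ⟨X 0 + (1 + X 3) * X 1 ^ 2, -(5 * X 1),
        by simp only [exH]; simp; ring⟩
  obtain ⟨c', hc'⟩ := hc
  have hLI' : LI ![a, b, c * τ + u * a] := by
    refine hLI.of_span (fun i => ?_) (fun i => ?_)
    · fin_cases i
      · exact hma
      · exact hmb
      · exact hme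
    · set S := Ideal.span (Set.range ![a, b, c * τ + u * a]) with hS
      have e0 : a ∈ S := Ideal.subset_span ⟨0, rfl⟩
      have e1 : b ∈ S := Ideal.subset_span ⟨1, rfl⟩
      have e2 : c * τ + u * a ∈ S := Ideal.subset_span ⟨2, rfl⟩
      fin_cases i
      · exact e0
      · exact e1
      · have h3 : τ = (↑c'⁻¹ : R1 3 K) * (c * τ + u * a) + (-((↑c'⁻¹ : R1 3 K) * u)) * a := by
          have h4 : (↑c'⁻¹ : R1 3 K) * c = 1 := by rw [← hc', Units.inv_mul]
          linear_combination (-τ) * h4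
        change τ ∈ S
        rw [h3]
        exact S.add_mem (S.mul_mem_left _ e2) (S.mul_mem_left _ e0)
  have hstar : c * τ + u * a ∈ p.img (exI K) :=
    star3 (d := 1) rfl hLI' (dvd_radical hpa (hass.symm.dvd.trans d0) hg)
      (dvd_radical hpb d1 hg) (dvd_radical hpc d2 hg) hE
  have heI : (X 0 - 1 * X 1 ^ 2 : MvPowerSeries (Fin 4) K) ∈ exI K :=
    Ideal.sub_mem _ (Neg_mem 0 (by decide))
      (Ideal.mul_mem_left _ _ (Ideal.pow_mem_of_mem _ (Neg_mem 1 (by decide)) _ (by norm_num)))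
  have haI : a ∈ p.img (exI K) := sP.pull_mem_img heI (Neg_mem 1 (by decide))
  have hcτ : c * τ ∈ p.img (exI K) :=
    (Ideal.add_mem_iff_left _ (Ideal.mul_mem_left _ _ haI)).1 hstar
  have hcu : IsUnit c := ⟨c', hc'⟩
  exact Neg_notMem (sP.mem_of_pull_mem heI ((Ideal.unit_mul_mem_iff_mem _ hcu).mp hcτ))

/-- No projection with a direction `v`, `v 0 ≠ 0` and `v 2 ≠ 0`, is equisingular. -/
theorem neg_ex {K : Type} [Field K] [IsAlgClosed K] [CharZero K] {𝒞 : ProjClass K}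
    (z : Fin 3 → MvPowerSeries (Fin 4) K) {v : Fin 4 → K} (hv : ∀ i, lin (z i) v = 0)
    (hv0 : v 0 ≠ 0) (hv2 : v 2 ≠ 0) : ¬ EquiProj 𝒞 1 (exF K) (exI K) z := by
  rintro ⟨hpar, -, g, I', ⟨σ, F, hσz, ⟨U, hU⟩, hgr, rfl⟩, hE⟩
  have hd := Neg_dir (⟨σ.equiv⟩ : Proj 3 K) hpar.1 hσz hv hv0
  refine Neg_main (⟨σ.equiv⟩ : Proj 3 K) (hd 0 hv0) (hd 2 hv2) (F := F) (U := U) ?_ hgr hE
  rw [ex_eq]
  exact hU

end Pool.Agent.Helper49.R2
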