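import Pool.Agent.Helper49.R2.Step1A
import Pool.Agent.Helper38.GP.PosA
import Pool.Agent.Helper85.R2.Good

/-! The union of four quadratic cones is equisingular along the line `z = x = y = 0`. -/

namespace Pool.Agent.Helper49.R2

open MvPowerSeries Pool.Agent.Helper38.EQ
open Pool.Agent.Helper38.GP hiding exF exI curveIdeal_ex equi_ex
open Pool.Agent.Helper38.ED (LI LI_iff prime_of_notMem_sq Rad)

section

variable {K : Type} [Field K]

/-- The kernel of `X 3 ↦ s`, `X j ↦ 0` for `j ≠ 3`. -/
theorem curveIdeal_ex : CurveIdeal (exI K) := by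
  classical
  let e : Unit ↪ Fin 4 := ⟨fun _ => 3, fun _ _ _ => rfl⟩
  refine ⟨(killCompl (R := K) e : MvPowerSeries (Fin 4) K →ₐ[K] MvPowerSeries Unit K), ?_,
    X 3, (mem_maximalIdeal_iff_constantCoeff _).2 (constantCoeff_X _), ?_⟩
  · have hI : exI K = coordIdeal K (Finset.univ.erase 3) := by
      have h1 : (X '' ((Finset.univ.erase 3 : Finset (Fin 4)) : Set (Fin 4)) :
          Set (MvPowerSeries (Fin 4) K)) = {X 0, X 1, X 2} := by
        have h2 : (Finset.univ.erase 3 : Finset (Fin 4)) = {0, 1, 2} := by decide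
        rw [h2]
        simp only [Finset.coe_insert, Finset.coe_singleton, Set.image_insert_eq,
          Set.image_singleton]
      unfold exI
      rw [← h1]
    rw [hI]
    ext p
    have h1 := mem_coordIdeal_pow_iff (K := K) (Finset.univ.erase 3 : Finset (Fin 4)) 1 p
    rw [pow_one] at h1
    rw [h1, RingHom.mem_ker]
    constructor
    · intro h α hα
      have h2 : ∀ i ∈ (Finset.univ.erase 3 : Finset (Fin 4)), α i = 0 := by
        have h3 : (∑ i ∈ (Finset.univ.erase 3 : Finset (Fin 4)), α i) = 0 := by omega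
        exact Finset.sum_eq_zero_iff.1 h3
      have h3 : α ∈ Set.range (Finsupp.embDomain (M := ℕ) e) := by
        rw [Finsupp.mem_range_embDomain_iff]
        intro i hi
        rw [Finset.mem_coe, Finsupp.mem_support_iff] at hi
        by_contra h5
        apply hi
        apply h2 i
        rw [Finset.mem_erase]
        refine ⟨fun h6 => h5 ⟨(), h6.symm⟩, Finset.mem_univ _⟩
      obtain ⟨x, hx⟩ := h3
      have h4 := coeff_killCompl (e := e) p x
      rw [← hx, ← h4]
      have h5 : (killCompl (R := K) e) p = 0 := h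
      rw [h5, map_zero]
    · intro h
      change (killCompl (R := K) e) p = 0
      refine MvPowerSeries.ext fun x => ?_
      rw [coeff_killCompl, map_zero]
      apply h
      have h2 : (∑ i ∈ (Finset.univ.erase 3 : Finset (Fin 4)), (Finsupp.embDomain e x) i) = 0 := by
        refine Finset.sum_eq_zero fun i hi => ?_
        apply Finsupp.embDomain_of_notMem_range
        rintro ⟨j, hj⟩
        have hj' : (3 : Fin 4) = i := hj
        rw [Finset.mem_erase] at hi
        exact hi.1 hj'.symm
      omega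
  · intro h
    have h1 : (killCompl (R := K) e) (X (e ())) = X () := killCompl_X ()
    have h2 : (X () : MvPowerSeries Unit K) = 0 := by
      rw [← h1]
      exact h
    have h3 := congrArg (coeff (Finsupp.single () 1)) h2
    rw [coeff_index_single_self_X, map_zero] at h3
    exact one_ne_zero h3

/-- The coordinates `z = X 0` (the fibre) and `X 1, X 2, X 3`. -/
noncomputable def exP (K : Type) [Field K] : Proj 3 K := ⟨finSuccEquiv K 3⟩

theorem exP_zero : (exP K).σ (X 0) = PowerSeries.X := finSuccEquiv_X_zero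

theorem exP_succ (i : Fin 3) : (exP K).σ (X i.succ) = PowerSeries.C (X i) :=
  finSuccEquiv_X_succ i

theorem exP_tr : (exP K).tr (X 0) = 1 := by
  unfold Proj.tr
  rw [exP_zero, PowerSeries.coeff_one_X, map_one]

theorem exI_mem (i : Fin 4) (hi : i ≠ 3) : (X i : MvPowerSeries (Fin 4) K) ∈ exI K := by
  apply Ideal.subset_span
  fin_cases i
  · exact Or.inl rfl
  · exact Or.inr (Or.inl rfl)
  · exact Or.inr (Or.inr rfl)
  · exact absurd rfl hi

theorem img_mem (i : Fin 3) (hi : i ≠ 2) :
    (X i : MvPowerSeries (Fin 3) K) ∈ (exP K).img (exI K) := by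
  rw [Proj.img, Ideal.mem_comap, ← exP_succ]
  refine Ideal.mem_map_of_mem _ (exI_mem _ fun h => hi ?_)
  rw [← Fin.succ_inj]
  exact h

theorem img_curve : CurveIdeal ((exP K).img (exI K)) := by
  refine CurveIdeal.img curveIdeal_ex (a := X 0) ?_ (exI_mem 0 (by decide)) ?_
  · exact (mem_maximalIdeal_iff_constantCoeff _).2 (constantCoeff_X _)
  · rw [exP_tr]
    exact one_ne_zero

theorem exF_mem : exF K ∈ exI K := by
  have h0 : (X 0 : MvPowerSeries (Fin 4) K) ∈ exI K := exI_mem 0 (by decide)
  have h1 : (X 1 : MvPowerSeries (Fin 4) K) ∈ exI K := exI_mem 1 (by decide)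
  have h2 : (X 0 ^ 2 - exH K 0 : MvPowerSeries (Fin 4) K) ∈ exI K := by
    refine Ideal.sub_mem _ (Ideal.pow_mem_of_mem _ h0 2 (by norm_num)) (Ideal.add_mem _ ?_ ?_)
    · exact Ideal.mul_mem_right _ _ h1
    · exact Ideal.pow_mem_of_mem _ h1 4 (by norm_num)
  exact Ideal.mem_of_dvd _ (Finset.dvd_prod_of_mem _ (Finset.mem_univ 0)) h2

end

variable {K : Type} [Field K] [CharZero K] {𝒞 : ProjClass K}

/-- `V` is equisingular along `W`, with linear transversal projections. -/
theorem equi_ex (h𝒞 : HasLin 𝒞) : Equi 𝒞 2 4 (exF K) (exI K) := by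
  classical
  have hX : ∀ i j : Fin 4, coeff (Finsupp.single j 1) (X i : MvPowerSeries (Fin 4) K) =
      if j = i then 1 else 0 := by
    intro i j
    rw [coeff_X]
    by_cases h : j = i
    · rw [h, if_pos rfl, if_pos rfl]
    · rw [if_neg h, if_neg]
      intro h1
      exact h (Finsupp.single_left_injective one_ne_zero h1)
  have hz : LinIndep (fun i : Fin 3 => (X i.succ : MvPowerSeries (Fin 4) K)) := by
    refine ⟨fun i => constantCoeff_X _, ?_⟩
    have h1 : (fun i : Fin 3 => fun j : Fin 4 => coeff (Finsupp.single j 1)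
        (X i.succ : MvPowerSeries (Fin 4) K)) = (Pi.basisFun K (Fin 4)) ∘ Fin.succ := by
      funext i j
      rw [Function.comp_apply, Pi.basisFun_apply, hX, Pi.single_apply]
    rw [h1]
    exact (Pi.basisFun K (Fin 4)).linearIndependent.comp _ (Fin.succ_injective 3)
  have hv : ∀ i : Fin 3, lin (X i.succ : MvPowerSeries (Fin 4) K) (Pi.single 0 1) = 0 := by
    intro i
    unfold lin
    refine Finset.sum_eq_zero fun j _ => ?_
    rw [hX]
    by_cases h : j = i.succ
    · rw [h, Pi.single_eq_of_ne (Fin.succ_ne_zero i), mul_zero]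
    · rw [if_neg h, zero_mul]
  have hv0 : (Pi.single 0 1 : Fin 4 → K) 0 ≠ 0 := by
    rw [Pi.single_eq_same]
    exact one_ne_zero
  obtain ⟨h1, h2, h3⟩ := Pool.Agent.Helper85.R2.good_proj_ex
    (fun i : Fin 3 => (X i.succ : MvPowerSeries (Fin 4) K)) hz hv hv0 (fun i => by
      rw [Pi.single_eq_same, Pi.single_eq_of_ne (by decide : (1 : Fin 4) ≠ 0), mul_zero, zero_mul,
        one_pow]
      exact one_ne_zero)
  refine ⟨exF_mem, fun i => X i.succ, h𝒞 3 _ _ ⟨fun i => ?_, h3⟩, h1, h2, exD K,
    (exP K).img (exI K), ⟨⟨finSuccEquiv K 3⟩, exW K, fun i => finSuccEquiv_X_succ i,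
      ⟨1, exW_dist, isUnit_one, ?_⟩, exW_red, rfl⟩,
    equi_exD h𝒞 (Associated.refl _) img_curve (img_mem 0 (by decide)) (img_mem 1 (by decide))⟩
  · refine ⟨Pi.single i.succ 1, ?_⟩
    rw [Finset.sum_eq_single i.succ]
    · rw [Pi.single_eq_same, map_one, one_mul]
    · intro j _ hj
      rw [Pi.single_eq_of_ne hj, map_zero, zero_mul]
    · intro h7
      exact absurd (Finset.mem_univ _) h7
  · rw [mul_one]
    exact finSuccEquiv_exF

end Pool.Agent.Helper49.R2
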