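import Pool.Agent.Helper38.GP.ArcMain
import Pool.Agent.Helper38.ED.Calc0D

/-! A germ `g = 0` that contains `a b (b + a ^ 2 e) = 0` is equisingular only along subvarieties of
`e = 0`. -/

namespace Pool.Agent.Helper49.R2

open MvPowerSeries Pool.Agent.Helper38.EQ Pool.Agent.Helper38.GP
open Pool.Agent.Helper38.ED (LI LI_iff)

/-- Completion of independent power series to a system of coordinates. -/
private theorem Star_coord {n m : ℕ} {K : Type} [Field K] {h : Fin m → MvPowerSeries (Fin n) K}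
    (hh : LI h) : ∃ (τ : MvPowerSeries (Fin n) K ≃ₐ[K] MvPowerSeries (Fin n) K)
      (j : Fin m → Fin n), Function.Injective j ∧ ∀ i, τ (X (j i)) = h i := by
  classical
  let v : Fin m → Fin n → K := fun i j => coeff (Finsupp.single j 1) (h i)
  have hv : LinearIndependent K v := hh.2
  let b := Module.Basis.sumExtend hv
  let e : (Fin m ⊕ Module.Basis.sumExtendIndex hv) ≃ Fin n := b.indexEquiv (Pi.basisFun K (Fin n))
  have hb : ∀ i, b (Sum.inl i) = v i := fun i => by
    simp only [b, Module.Basis.sumExtend]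
    rw [Module.Basis.reindex_apply, Module.Basis.extend_apply_self]
    rfl
  let y : Fin n → MvPowerSeries (Fin n) K := fun k =>
    Sum.elim h (fun x => ∑ j, C (b (Sum.inr x) j) * X j) (e.symm k)
  have hy : ∀ i, y (e (Sum.inl i)) = h i := fun i => by
    simp [y]
  have h0 : ∀ k, constantCoeff (y k) = 0 := by
    intro k
    obtain ⟨s, rfl⟩ := e.surjective k
    rcases s with i | x
    · rw [hy]
      exact hh.1 i
    · simp [y]
  have hlin : ∀ s j, coeff (Finsupp.single j 1) (y (e s)) = b s j := by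
    intro s j
    rcases s with i | x
    · rw [hy, hb]
    · simp only [y, Equiv.symm_apply_apply, Sum.elim_inr, map_sum, coeff_C_mul]
      rw [Finset.sum_eq_single j]
      · rw [coeff_X, if_pos rfl, mul_one]
      · intro k _ hk
        rw [coeff_X, if_neg, mul_zero]
        intro h3
        exact hk ((Finsupp.single_left_injective one_ne_zero h3).symm)
      · intro h3
        exact absurd (Finset.mem_univ _) h3
  have hdet : (Matrix.of fun i j => coeff (Finsupp.single j 1) (y i)).det ≠ 0 := by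
    have h1 : LinearIndependent K
        (Matrix.of fun i j => coeff (Finsupp.single j 1) (y i) : Matrix (Fin n) (Fin n) K).row := by
      have h2 : (Matrix.of fun i j => coeff (Finsupp.single j 1) (y i) :
          Matrix (Fin n) (Fin n) K).row = b ∘ e.symm := by
        funext i j
        obtain ⟨s, rfl⟩ := e.surjective i
        simp only [Matrix.row, Matrix.of_apply, Function.comp, Equiv.symm_apply_apply]
        exact hlin s j
      rw [h2]
      exact b.linearIndependent.comp _ e.symm.injective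
    rw [Matrix.linearIndependent_rows_iff_isUnit, Matrix.isUnit_iff_isUnit_det] at h1
    exact h1.ne_zero
  obtain ⟨τ, hτ⟩ := exists_algEquiv y (span_eq_of_linear y h0 hdet)
  exact ⟨τ, fun i => e (Sum.inl i), fun i i' hi => Sum.inl_injective (e.injective hi),
    fun i => by rw [hτ, hy]⟩

/-- The exponent is determined by the restriction to `w = 0`. -/
private theorem Star_exp {d : ℕ} {K : Type} [Field K] {x : WS d K} {α : K} (hα : α ≠ 0)
    {k l : ℕ} (h : om d K x = PowerSeries.C α * PowerSeries.X ^ l)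
    (hk : Associated x (PowerSeries.X ^ k)) : Associated x (PowerSeries.X ^ l) := by
  have h1 : Associated (om d K x) (PowerSeries.X ^ k : PowerSeries K) := by
    have h2 := hk.map (om d K)
    have h3 : om d K (PowerSeries.X ^ k) = (PowerSeries.X ^ k : PowerSeries K) := by
      simp [om]
    rwa [h3] at h2
  have hu : IsUnit (PowerSeries.C α : PowerSeries K) := (isUnit_iff_ne_zero.2 hα).map _
  have h2 : Associated (om d K x) (PowerSeries.X ^ l : PowerSeries K) := by
    rw [h]
    exact associated_unit_mul_left _ _ hu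
  have h3 : Associated (PowerSeries.X ^ k : PowerSeries K) (PowerSeries.X ^ l) := h1.symm.trans h2
  have h4 : k = l :=
    le_antisymm
      ((pow_dvd_pow_iff PowerSeries.X_ne_zero PowerSeries.X_prime.not_isUnit).1 h3.dvd)
      ((pow_dvd_pow_iff PowerSeries.X_ne_zero PowerSeries.X_prime.not_isUnit).1 h3.symm.dvd)
  rwa [h4] at hk

/-- Proof: complete `a, b, e` to a system of coordinates. By `exists_arc`, with weights `1, 3, 1`
(and `1` for the other variables), there is an arc `γ` with `γ a = α s`, `γ b = β s ^ 3`,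
`γ e = ε s`, with `α β (β + α ^ 2 ε) ≠ 0` and `γ G ≠ 0` for the `G` of `Equi.lifts`. For the
family `Γ`: the product of the three factors is a power of `s` up to a unit, hence so is each
factor, and by restriction to `w = 0` these powers are `s ^ q`, `s ^ (3 q)`, `s ^ (3 q)`. So
`Γ (a ^ 2 e)` is divisible by `s ^ (3 q)`, and `Γ e` by `s ^ q`; so its constant coefficient is
`0`, and `e ∈ I`. -/
theorem star3 {K : Type} [Field K] [IsAlgClosed K] [CharZero K] {𝒞 : ProjClass K}
    {r n d : ℕ} (hn : n = r + d + 1) {a b e g : MvPowerSeries (Fin n) K}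
    (hLI : LI ![a, b, e]) (hag : a ∣ g) (hbg : b ∣ g) (hcg : b + a ^ 2 * e ∣ g)
    {I : Ideal (MvPowerSeries (Fin n) K)} (h : Equi 𝒞 r n g I) : e ∈ I := by
  classical
  obtain ⟨τ, j, hj, hτ⟩ := Star_coord hLI
  have hτa : τ.symm a = X (j 0) := by rw [AlgEquiv.symm_apply_eq, hτ 0]; rfl
  have hτb : τ.symm b = X (j 1) := by rw [AlgEquiv.symm_apply_eq, hτ 1]; rfl
  have hτe : τ.symm e = X (j 2) := by rw [AlgEquiv.symm_apply_eq, hτ 2]; rfl
  obtain ⟨G, hG0, hg0, hL⟩ := h.lifts hn
  let w : Fin n → ℕ := fun k => if k = j 1 then 3 else 1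
  have hw : ∀ k, 1 ≤ w k := by
    intro k
    simp only [w]
    split_ifs <;> omega
  have hw0 : w (j 0) = 1 := by simp [w, hj.eq_iff]
  have hw1 : w (j 1) = 3 := by simp [w]
  have hw2 : w (j 2) = 1 := by simp [w, hj.eq_iff]
  let P : MvPolynomial (Fin n) K :=
    MvPolynomial.X (j 0) * MvPolynomial.X (j 1) *
      (MvPolynomial.X (j 1) + MvPolynomial.X (j 0) ^ 2 * MvPolynomial.X (j 2))
  have hP : P ≠ 0 := by
    intro h0
    have h1 := congrArg (MvPolynomial.eval (fun k => if k = j 0 ∨ k = j 1 then (1 : K) else 0)) h0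
    simp [P, hj.eq_iff] at h1
  have hG' : τ.symm G ≠ 0 := by
    intro h0
    exact hG0 ((map_eq_zero_iff τ.symm τ.symm.injective).1 h0)
  obtain ⟨κ, γ', hκ, hγG, hγ'⟩ := exists_arc hG' w hw hP
  let γ : MvPowerSeries (Fin n) K →ₐ[K] PowerSeries K := γ'.comp (τ.symm : _ →ₐ[K] _)
  have hγ : ∀ x, γ x = γ' (τ.symm x) := fun x => rfl
  obtain ⟨q, hq, Γ, hΓ1, hΓ2, M, hM⟩ := hL γ (by rw [hγ]; exact hγG)
  have hexp : ∀ (α : K) (l : ℕ), PowerSeries.expand q hq
      (PowerSeries.C α * PowerSeries.X ^ l : PowerSeries K) =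
      PowerSeries.C α * PowerSeries.X ^ (l * q) := by
    intro α l
    rw [map_mul, map_pow, PowerSeries.expand_X, PowerSeries.expand_C, ← pow_mul, mul_comm q l]
  set α := κ (j 0) with hα
  set β := κ (j 1) with hβ
  set ε := κ (j 2) with hε
  have hPe : α * β * (β + α ^ 2 * ε) ≠ 0 := by
    simpa [P] using hκ
  have h3 : β + α ^ 2 * ε ≠ 0 := right_ne_zero_of_mul hPe
  have h2 : β ≠ 0 := right_ne_zero_of_mul (left_ne_zero_of_mul hPe)
  have h1 : α ≠ 0 := left_ne_zero_of_mul (left_ne_zero_of_mul hPe)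
  have ga : γ a = PowerSeries.C α * PowerSeries.X ^ 1 := by rw [hγ, hτa, hγ', hw0]
  have gb : γ b = PowerSeries.C β * PowerSeries.X ^ 3 := by rw [hγ, hτb, hγ', hw1]
  have ge : γ e = PowerSeries.C ε * PowerSeries.X ^ 1 := by rw [hγ, hτe, hγ', hw2]
  have g3 : γ (b + a ^ 2 * e) = PowerSeries.C (β + α ^ 2 * ε) * PowerSeries.X ^ 3 := by
    rw [map_add, map_mul, map_pow, ga, gb, ge, map_add, map_mul, map_pow]
    ring
  have hass : ∀ (x : MvPowerSeries (Fin n) K) (μ : K) (l : ℕ), μ ≠ 0 →
      γ x = PowerSeries.C μ * PowerSeries.X ^ l → x ∣ g →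
      Associated (Γ x) (PowerSeries.X ^ (l * q)) := by
    intro x μ l hμ hx hd
    obtain ⟨k, hk⟩ := assoc_of_dvd_X_pow ((map_dvd Γ hd).trans hM.dvd)
    exact Star_exp hμ (by rw [hΓ1, hx, hexp]) hk
  have A1 : Associated (Γ a) (PowerSeries.X ^ (1 * q)) := hass a α 1 h1 ga hag
  have A2 : Associated (Γ b) (PowerSeries.X ^ (3 * q)) := hass b β 3 h2 gb hbg
  have A3 : Associated (Γ (b + a ^ 2 * e)) (PowerSeries.X ^ (3 * q)) := hass _ _ 3 h3 g3 hcg
  have D5 : (PowerSeries.X : WS d K) ^ (3 * q) ∣ Γ (a ^ 2 * e) := by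
    have h5 : Γ (a ^ 2 * e) = Γ (b + a ^ 2 * e) - Γ b := by
      rw [map_add, add_sub_cancel_left]
    rw [h5]
    exact dvd_sub A3.symm.dvd A2.symm.dvd
  obtain ⟨u, hu⟩ := A1
  have hb : Γ a = (PowerSeries.X : WS d K) ^ q * (↑u⁻¹ : WS d K) := by
    rw [one_mul] at hu
    rw [← hu, mul_assoc, Units.mul_inv, mul_one]
  have D6 : (PowerSeries.X : WS d K) ^ q ∣ Γ e := by
    have h6 : Γ (a ^ 2 * e) = PowerSeries.X ^ (2 * q) * (((↑u⁻¹ : WS d K) ^ 2) * Γ e) := by
      rw [map_mul, map_pow, hb]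
      ring
    rw [h6, show 3 * q = 2 * q + q by ring, pow_add] at D5
    have h7 := (mul_dvd_mul_iff_left (pow_ne_zero _ PowerSeries.X_ne_zero)).1 D5
    exact (((u⁻¹ ^ 2 : (WS d K)ˣ).isUnit).dvd_mul_left).1 (by simpa using h7)
  rw [← hΓ2]
  have h8 : (PowerSeries.X : WS d K) ∣ Γ e := (dvd_pow_self _ hq).trans D6
  exact PowerSeries.X_dvd_iff.1 h8

end Pool.Agent.Helper49.R2
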