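import Pool.Agent.Helper49.R2.Step2D
import Pool.Agent.Helper38.GQ.Props
import Pool.Agent.Helper80.R2.Discr

/-! The radical of the discriminant of the union of four cones. -/

namespace Pool.Agent.Helper49.R2

open MvPowerSeries Pool.Agent.Helper38.EQ Pool.Agent.Helper38.GP
open Pool.Agent.Helper38.ED (LI LI_iff prime_of_notMem_sq Rad)

section

variable {K : Type} [Field K]

theorem li_XYw (w : MvPowerSeries (Fin 3) K) :
    LI ![(X 1 - w * X 0 ^ 3 : MvPowerSeries (Fin 3) K), X 0] := by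
  have h0 : LI ![(X 1 : MvPowerSeries (Fin 3) K), X 0] := by
    have := (li_XY (K := K)).comp (![1, 0] : Fin 2 → Fin 2) (by decide)
    have e : (fun i => ![(X 0 : MvPowerSeries (Fin 3) K), X 1] ((![1, 0] : Fin 2 → Fin 2) i)) =
        ![X 1, X 0] := by
      funext i
      fin_cases i <;> rfl
    rwa [e] at this
  refine h0.congr fun k => ?_
  have hX : (X 0 : MvPowerSeries (Fin 3) K) ∈ IsLocalRing.maximalIdeal (MvPowerSeries (Fin 3) K) :=
    h0.mem 1
  fin_cases k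
  · show X 1 - w * X 0 ^ 3 - X 1 ∈ _
    have : X 1 - w * X 0 ^ 3 - X 1 = -(w * X 0 ^ 3) := by ring
    rw [this, neg_mem_iff]
    exact Ideal.mul_mem_left _ _ (Ideal.pow_le_pow_right (by norm_num) (Ideal.pow_mem_pow hX 3))
  · show X 0 - X 0 ∈ _
    rw [sub_self]
    exact Ideal.zero_mem _

variable [CharZero K]

theorem eXY_not_dvd (i j : Fin 11) (hij : i ≠ j) :
    ¬ eXY (X 0) (X 1) (wK K) i ∣ eXY (X 0) (X 1) (wK K) j := by
  intro h
  induction i using Fin.cases with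
  | zero =>
    obtain ⟨j', rfl⟩ := Fin.exists_succ_eq.2 hij.symm
    have h1 : (X 0 : MvPowerSeries (Fin 3) K) ∣ X 1 - wK K j' * X 0 ^ 3 := h
    have h2 : (X 0 : MvPowerSeries (Fin 3) K) ∣ X 1 :=
      (dvd_sub_left ((dvd_pow_self _ (by norm_num)).mul_left _)).1 h1
    exact (li_XY (K := K)).not_dvd h2
  | succ i =>
    have hnot : ¬ (X 1 - wK K i * X 0 ^ 3 : MvPowerSeries (Fin 3) K) ∣ X 0 :=
      (li_XYw (wK K i)).not_dvd
    induction j using Fin.cases with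
    | zero => exact hnot h
    | succ j =>
      have hne : i ≠ j := by
        rintro rfl
        exact hij rfl
      have h1 : (X 1 - wK K i * X 0 ^ 3 : MvPowerSeries (Fin 3) K) ∣ (wK K i - wK K j) * X 0 ^ 3 := by
        have h2 : (X 1 - wK K i * X 0 ^ 3 : MvPowerSeries (Fin 3) K) ∣ X 1 - wK K j * X 0 ^ 3 := h
        have h3 := dvd_sub h2 (dvd_refl (X 1 - wK K i * X 0 ^ 3 : MvPowerSeries (Fin 3) K))
        have h4 : X 1 - wK K j * X 0 ^ 3 - (X 1 - wK K i * X 0 ^ 3) =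
            (wK K i - wK K j) * X 0 ^ 3 := by ring
        rwa [h4] at h3
      have hp : Prime (X 1 - wK K i * X 0 ^ 3 : MvPowerSeries (Fin 3) K) :=
        prime_of_notMem_sq (eXY_smooth li_XY (wK K) i.succ).1 (eXY_smooth li_XY (wK K) i.succ).2
      exact hnot (hp.dvd_of_dvd_pow (h1.trans
        (associated_unit_mul_left _ _ (wK_isUnit i j hne)).dvd))

/-- `D` is radical. -/
theorem exD_rad : Rad (exD K) := by
  have h1 := Rad.prod (eXY (X 0) (X 1) (wK K)) (fun i =>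
    prime_of_notMem_sq (eXY_smooth li_XY (wK K) i).1 (eXY_smooth li_XY (wK K) i).2) eXY_not_dvd
  rw [eXY_prod] at h1
  exact h1

/-- the indices of the factors of `h_m` -/
def κ1 : Fin 4 → Fin 10 := ![2, 3, 4, 5]

/-- the indices of the factors of `h_l - h_m` -/
def κ2 : Fin 4 → Fin 4 → Fin 10 := ![![0, 0, 6, 7], ![0, 0, 8, 9], ![6, 8, 0, 1], ![7, 9, 1, 0]]

private theorem a0 : wα 0 = 0 := rfl
private theorem b0 : wβ 0 = 0 := rfl
private theorem a1 : wα 1 = 1 := rfl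
private theorem b1 : wβ 1 = 0 := rfl
private theorem a2 : wα 2 = -1 := rfl
private theorem b2 : wβ 2 = 0 := rfl
private theorem a3 : wα 3 = -1 / 2 := rfl
private theorem b3 : wβ 3 = 0 := rfl
private theorem a4 : wα 4 = 1 := rfl
private theorem b4 : wβ 4 = 1 / 3 := rfl
private theorem a5 : wα 5 = 1 := rfl
private theorem b5 : wβ 5 = 1 / 5 := rfl
private theorem a6 : wα 6 = 2 := rfl
private theorem b6 : wβ 6 = 1 / 2 := rfl
private theorem a7 : wα 7 = 3 / 2 := rfl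
private theorem b7 : wβ 7 = 1 / 4 := rfl
private theorem a8 : wα 8 = 4 := rfl
private theorem b8 : wβ 8 = 1 := rfl
private theorem a9 : wα 9 = 2 := rfl
private theorem b9 : wβ 9 = 1 / 3 := rfl

/-- the coefficient of `x y` in `h_m` -/
def ca : Fin 4 → ℚ := ![1, 2, 3, 5]

/-- the constant in `h_m` -/
def cc : Fin 4 → ℚ := ![-1, -1, 3, 5]

/-- the coefficient of `(1 + t) ^ 2` in `h_m` -/
def cd : Fin 4 → ℚ := ![0, 0, 1, 1]

/-- The general form of the series. -/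
private theorem form_assoc {a c d : ℚ} (ha : a ≠ 0) {k : Fin 10} (h1 : a * wα k = c)
    (h2 : a * wβ k = d) :
    Associated (C ((a : ℚ) : K) * (X 0 * X 1) -
      (C ((c : ℚ) : K) - C ((d : ℚ) : K) * (1 + X 2) ^ 2) * X 0 ^ 4 : MvPowerSeries (Fin 3) K)
      (X 0 * (X 1 - wK K k * X 0 ^ 3)) := by
  have hu : IsUnit (C ((a : ℚ) : K) : MvPowerSeries (Fin 3) K) := by
    rw [MvPowerSeries.isUnit_iff_constantCoeff, constantCoeff_C, isUnit_iff_ne_zero]
    exact Rat.cast_ne_zero.2 ha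
  have h3 : (C ((a : ℚ) : K) * (X 0 * X 1) -
      (C ((c : ℚ) : K) - C ((d : ℚ) : K) * (1 + X 2) ^ 2) * X 0 ^ 4 : MvPowerSeries (Fin 3) K) =
      C ((a : ℚ) : K) * (X 0 * (X 1 - wK K k * X 0 ^ 3)) := by
    unfold wK
    rw [← h1, ← h2, Rat.cast_mul, Rat.cast_mul, map_mul, map_mul]
    ring
  rw [h3]
  exact associated_unit_mul_left _ _ hu

theorem exh_form (i : Fin 4) : exh K i = C ((ca i : ℚ) : K) * (X 0 * X 1) -
      (C ((cc i : ℚ) : K) - C ((cd i : ℚ) : K) * (1 + X 2) ^ 2) * X 0 ^ 4 := by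
  fin_cases i
  · show X 0 * X 1 + X 0 ^ 4 = C (((1 : ℚ)) : K) * (X 0 * X 1) -
      (C (((-1 : ℚ)) : K) - C (((0 : ℚ)) : K) * (1 + X 2) ^ 2) * X 0 ^ 4
    rw [Rat.cast_neg, Rat.cast_one, Rat.cast_zero, map_neg, map_one, map_zero]
    ring
  · show 2 * X 0 * X 1 + X 0 ^ 4 = C (((2 : ℚ)) : K) * (X 0 * X 1) -
      (C (((-1 : ℚ)) : K) - C (((0 : ℚ)) : K) * (1 + X 2) ^ 2) * X 0 ^ 4
    rw [Rat.cast_neg, Rat.cast_one, Rat.cast_zero, Rat.cast_ofNat, map_neg, map_one, map_zero,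
      map_ofNat]
    ring
  · show 3 * X 0 * X 1 + ((1 + X 2) ^ 2 - 3) * X 0 ^ 4 = C (((3 : ℚ)) : K) * (X 0 * X 1) -
      (C (((3 : ℚ)) : K) - C (((1 : ℚ)) : K) * (1 + X 2) ^ 2) * X 0 ^ 4
    rw [Rat.cast_one, Rat.cast_ofNat, map_one, map_ofNat]
    ring
  · show 5 * X 0 * X 1 + ((1 + X 2) ^ 2 - 5) * X 0 ^ 4 = C (((5 : ℚ)) : K) * (X 0 * X 1) -
      (C (((5 : ℚ)) : K) - C (((1 : ℚ)) : K) * (1 + X 2) ^ 2) * X 0 ^ 4
    rw [Rat.cast_one, Rat.cast_ofNat, map_one, map_ofNat]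
    ring

theorem exh_assoc (i : Fin 4) :
    Associated (exh K i) (X 0 * (X 1 - wK K (κ1 i) * X 0 ^ 3)) := by
  rw [exh_form]
  refine form_assoc ?_ ?_ ?_
  · fin_cases i <;> norm_num [ca]
  · fin_cases i <;> norm_num [ca, cc, κ1, a0, a1, a2, a3, a4, a5, a6, a7, a8, a9]
  · fin_cases i <;> norm_num [ca, cd, κ1, b0, b1, b2, b3, b4, b5, b6, b7, b8, b9]

theorem exh_sub_assoc (i j : Fin 4) (h : i ≠ j) :
    Associated (exh K i - exh K j) (X 0 * (X 1 - wK K (κ2 i j) * X 0 ^ 3)) := by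
  have h1 : exh K i - exh K j = C (((ca i - ca j : ℚ)) : K) * (X 0 * X 1) -
      (C (((cc i - cc j : ℚ)) : K) - C (((cd i - cd j : ℚ)) : K) * (1 + X 2) ^ 2) * X 0 ^ 4 := by
    rw [exh_form, exh_form, Rat.cast_sub, Rat.cast_sub, Rat.cast_sub, map_sub, map_sub, map_sub]
    ring
  rw [h1]
  refine form_assoc ?_ ?_ ?_
  · revert h
    fin_cases i <;> fin_cases j <;> norm_num [ca]
  · fin_cases i <;> fin_cases j <;> norm_num [ca, cc, κ2, a0, a1, a2, a3, a4, a5, a6, a7, a8, a9]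
  · fin_cases i <;> fin_cases j <;> norm_num [ca, cd, κ2, b0, b1, b2, b3, b4, b5, b6, b7, b8, b9]

omit [CharZero K] in
private theorem fac_dvd (k : Fin 10) :
    (X 0 * (X 1 - wK K k * X 0 ^ 3) : MvPowerSeries (Fin 3) K) ∣ exD K :=
  mul_dvd_mul (dvd_refl _) (Finset.dvd_prod_of_mem _ (Finset.mem_univ k))

/-- the discriminant of `∏ (z ^ 2 - h_m)`, up to a unit -/
noncomputable def exDisc (K : Type) [Field K] : MvPowerSeries (Fin 3) K :=
  (∏ i, exh K i) * (∏ i, ∏ j ∈ Finset.univ.filter (fun j => j ≠ i), (exh K i - exh K j)) ^ 2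

theorem exDisc_dvd : ∃ N, exDisc K ∣ exD K ^ N := by
  have h1 : (∏ i, exh K i) ∣ exD K ^ 4 := by
    have h2 : (∏ i : Fin 4, exh K i) ∣ ∏ _i : Fin 4, exD K :=
      Finset.prod_dvd_prod_of_dvd _ _ fun i _ => (exh_assoc i).dvd.trans (fac_dvd _)
    rwa [Finset.prod_const, Finset.card_univ, Fintype.card_fin] at h2
  have h3 : ∀ i : Fin 4, (∏ j ∈ Finset.univ.filter (fun j => j ≠ i), (exh K i - exh K j)) ∣
      exD K ^ 3 := fun i => by
    have h4 : (∏ j ∈ Finset.univ.filter (fun j => j ≠ i), (exh K i - exh K j)) ∣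
        ∏ _j ∈ Finset.univ.filter (fun j => j ≠ i), exD K :=
      Finset.prod_dvd_prod_of_dvd _ _ fun j hj =>
        (exh_sub_assoc i j (Finset.mem_filter.1 hj).2.symm).dvd.trans (fac_dvd _)
    rw [Finset.prod_const] at h4
    have h5 : (Finset.univ.filter (fun j : Fin 4 => j ≠ i)).card = 3 := by
      fin_cases i <;> rfl
    rwa [h5] at h4
  have h6 : (∏ i, ∏ j ∈ Finset.univ.filter (fun j => j ≠ i), (exh K i - exh K j)) ∣
      (exD K ^ 3) ^ 4 := by
    have h7 : (∏ i, ∏ j ∈ Finset.univ.filter (fun j => j ≠ i), (exh K i - exh K j)) ∣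
        ∏ _i : Fin 4, exD K ^ 3 := Finset.prod_dvd_prod_of_dvd _ _ fun i _ => h3 i
    rwa [Finset.prod_const, Finset.card_univ, Fintype.card_fin] at h7
  refine ⟨4 + 3 * 4 * 2, ?_⟩
  rw [pow_add, pow_mul, pow_mul]
  exact mul_dvd_mul h1 (pow_dvd_pow_of_dvd h6 2)

theorem exD_dvd : ∃ N, exD K ∣ exDisc K ^ N := by
  have h0 : (∏ i, ∏ j ∈ Finset.univ.filter (fun j => j ≠ i), (exh K i - exh K j)) ∣
      exDisc K := (dvd_pow_self _ two_ne_zero).mul_left _
  have h1 : ∀ i, exh K i ∣ exDisc K := fun i =>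
    (Finset.dvd_prod_of_mem _ (Finset.mem_univ i)).trans (dvd_mul_right _ _)
  have h2 : ∀ i j, i ≠ j → exh K i - exh K j ∣ exDisc K := fun i j hij => by
    refine Dvd.dvd.trans ?_ h0
    refine Dvd.dvd.trans ?_ (Finset.dvd_prod_of_mem
      (fun i => ∏ j ∈ Finset.univ.filter (fun j => j ≠ i), (exh K i - exh K j))
      (Finset.mem_univ i))
    exact Finset.dvd_prod_of_mem (fun j => exh K i - exh K j)
      (Finset.mem_filter.2 ⟨Finset.mem_univ j, hij.symm⟩)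
  have h3 : ∀ i, (X 0 * (X 1 - wK K (κ1 i) * X 0 ^ 3) : MvPowerSeries (Fin 3) K) ∣ exDisc K :=
    fun i => (exh_assoc i).symm.dvd.trans (h1 i)
  have h4 : ∀ i j, i ≠ j →
      (X 0 * (X 1 - wK K (κ2 i j) * X 0 ^ 3) : MvPowerSeries (Fin 3) K) ∣ exDisc K :=
    fun i j hij => (exh_sub_assoc i j hij).symm.dvd.trans (h2 i j hij)
  have h5 : ∀ k : Fin 10,
      (X 0 * (X 1 - wK K k * X 0 ^ 3) : MvPowerSeries (Fin 3) K) ∣ exDisc K := by
    intro k
    fin_cases k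
    · exact h4 0 1 (by decide)
    · exact h4 2 3 (by decide)
    · exact h3 0
    · exact h3 1
    · exact h3 2
    · exact h3 3
    · exact h4 0 2 (by decide)
    · exact h4 0 3 (by decide)
    · exact h4 1 2 (by decide)
    · exact h4 1 3 (by decide)
  refine ⟨1 + 10, ?_⟩
  rw [pow_add, pow_one]
  refine mul_dvd_mul ((dvd_mul_right _ _).trans (h5 0)) ?_
  have h6 : (∏ k, (X 1 - wK K k * X 0 ^ 3) : MvPowerSeries (Fin 3) K) ∣ ∏ _k : Fin 10, exDisc K :=
    Finset.prod_dvd_prod_of_dvd _ _ fun k _ => (dvd_mul_left _ _).trans (h5 k)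
  rwa [Finset.prod_const, Finset.card_univ, Fintype.card_fin] at h6

theorem exW_discr_assoc : Associated (exW K).discr (exDisc K) := by
  have h1 := Pool.Agent.Helper80.R2.discr_sq (by norm_num : 0 < 4) (exh K)
  refine h1.trans ?_
  rw [mul_assoc]
  refine associated_unit_mul_left _ _ ?_
  rw [MvPowerSeries.isUnit_iff_constantCoeff, map_pow, map_ofNat]
  exact (isUnit_iff_ne_zero.2 (by norm_num)).pow 4

/-- `D = 0` is the reduced discriminant. -/
theorem exW_red : Ideal.span {exD K} = (Ideal.span {(exW K).discr}).radical := by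
  have h1 : Ideal.span {(exW K).discr} = Ideal.span {exDisc K} :=
    Ideal.span_singleton_eq_span_singleton.2 exW_discr_assoc
  rw [h1]
  exact Rad.span_eq exD_rad exD_dvd exDisc_dvd

end

end Pool.Agent.Helper49.R2
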