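import Pool.Agent.Helper38.GP.Pos4

/-! Equisingularity of the germs `x ∏ (y - w_k x ^ 3) = 0` in three variables along a curve in
`x = y = 0`, for `w_k` with different values at the origin. -/

namespace Pool.Agent.Helper49.R2

open MvPowerSeries Pool.Agent.Helper38.EQ Pool.Agent.Helper38.GP
open Pool.Agent.Helper38.ED (LI LI_iff prime_of_notMem_sq exists_eval discr_prod Rad
  isUnit_natCast_add isUnit_one_add)

section

variable {n : ℕ} {K : Type} [Field K]

/-- The components of `x ∏ (y - w_k x ^ 3) = 0`. -/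
noncomputable def eXY {R : Type} [CommRing R] {m : ℕ} (x y : R) (w : Fin m → R) :
    Fin (m + 1) → R :=
  Fin.cons x fun k => y - w k * x ^ 3

theorem eXY_zero {R : Type} [CommRing R] {m : ℕ} (x y : R) (w : Fin m → R) :
    eXY x y w 0 = x := rfl

theorem eXY_succ {R : Type} [CommRing R] {m : ℕ} (x y : R) (w : Fin m → R) (k : Fin m) :
    eXY x y w k.succ = y - w k * x ^ 3 := rfl

theorem eXY_prod {R : Type} [CommRing R] {m : ℕ} (x y : R) (w : Fin m → R) :
    ∏ i, eXY x y w i = x * ∏ k, (y - w k * x ^ 3) := by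
  rw [Fin.prod_univ_succ]
  rfl

theorem eXY_smooth {m : ℕ} {x y : MvPowerSeries (Fin n) K} (h : LI ![x, y])
    (w : Fin m → MvPowerSeries (Fin n) K) (i : Fin (m + 1)) :
    eXY x y w i ∈ IsLocalRing.maximalIdeal (MvPowerSeries (Fin n) K) ∧
      eXY x y w i ∉ IsLocalRing.maximalIdeal (MvPowerSeries (Fin n) K) ^ 2 := by
  have hx : x ∈ IsLocalRing.maximalIdeal (MvPowerSeries (Fin n) K) := h.mem 0
  have hy : y ∈ IsLocalRing.maximalIdeal (MvPowerSeries (Fin n) K) := h.mem 1
  refine Fin.cases ?_ (fun k => ?_) i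
  · exact ⟨hx, h.notMem_sq 0⟩
  · rw [eXY_succ]
    have h3 : w k * x ^ 3 ∈ IsLocalRing.maximalIdeal (MvPowerSeries (Fin n) K) ^ 2 :=
      Ideal.mul_mem_left _ _ (Ideal.pow_le_pow_right (by norm_num) (Ideal.pow_mem_pow hx 3))
    refine ⟨Ideal.sub_mem _ hy (Ideal.pow_le_self two_ne_zero h3), fun h4 => ?_⟩
    have h5 := Ideal.add_mem _ h4 h3
    rw [sub_add_cancel] at h5
    exact h.notMem_sq 1 h5

/-- The critical variety of `x ∏ (y - w_k x ^ 3) = 0` is smooth: its equation is the restriction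
of `y` to `x = 0`. -/
theorem calcXY {m : ℕ} (hm : 0 < m) (p : Proj n K) {x y : MvPowerSeries (Fin (n + 1)) K}
    (h : LI ![x, y]) (w : Fin m → MvPowerSeries (Fin (n + 1)) K)
    (hw : ∀ k l, k ≠ l → IsUnit (w k - w l)) (s : ∀ i, Sec p (eXY x y w i)) :
    IsDisc s ((s 0).pull y) ∧
    (s 0).pull y ∈ IsLocalRing.maximalIdeal (R1 n K) ∧
    (s 0).pull y ∉ IsLocalRing.maximalIdeal (R1 n K) ^ 2 := by
  have hLI : LI ![(s 0).pull y] := by
    have h3 : LI (Fin.cons x ![y] : Fin 2 → MvPowerSeries (Fin (n + 1)) K) := h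
    have h4 := (s 0).LI_pull ![y] h3
    have e : (fun i => (s 0).pull ((![y] : Fin 1 → MvPowerSeries (Fin (n + 1)) K) i)) =
        ![(s 0).pull y] := by
      funext i
      fin_cases i
      rfl
    rwa [e] at h4
  have h1 : (s 0).pull y ∈ IsLocalRing.maximalIdeal (R1 n K) := hLI.mem 0
  have h2 : (s 0).pull y ∉ IsLocalRing.maximalIdeal (R1 n K) ^ 2 := hLI.notMem_sq 0
  have hx0 : (s 0).pull x = 0 := (s 0).pull_self
  have h0 : ∀ k : Fin m, (s 0).pull (eXY x y w k.succ) = (s 0).pull y := fun k => by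
    rw [eXY_succ, map_sub, map_mul, map_pow, hx0]
    ring
  have hk : ∀ k : Fin m, Associated ((s k.succ).pull x) ((s 0).pull y) := fun k => by
    have a1 : Associated ((s k.succ).pull (eXY x y w 0)) ((s k.succ).r - (s 0).r) :=
      (s k.succ).assoc (s 0)
    have a2 : Associated ((s 0).pull (eXY x y w k.succ)) ((s 0).r - (s k.succ).r) :=
      (s 0).assoc (s k.succ)
    rw [h0 k] at a2
    have a3 : Associated ((s k.succ).r - (s 0).r) ((s 0).r - (s k.succ).r) := by
      rw [← neg_sub]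
      exact (Associated.refl _).neg_left
    exact (a1.trans a3).trans a2.symm
  have hkl : ∀ k l : Fin m, k ≠ l →
      (s k.succ).pull (eXY x y w l.succ) ∣ (s 0).pull y ^ 3 := fun k l hne => by
    have e1 : (s k.succ).pull y = (s k.succ).pull (w k) * (s k.succ).pull x ^ 3 := by
      have h5 : (s k.succ).pull (y - w k * x ^ 3) = 0 := (s k.succ).pull_self
      rw [map_sub, map_mul, map_pow, sub_eq_zero] at h5
      exact h5
    have e2 : (s k.succ).pull (eXY x y w l.succ) =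
        (s k.succ).pull (w k - w l) * (s k.succ).pull x ^ 3 := by
      have h5 : (s k.succ).pull (eXY x y w l.succ) = (s k.succ).pull (y - w l * x ^ 3) := rfl
      rw [h5, map_sub, map_mul, map_pow, e1, map_sub]
      ring
    rw [e2]
    exact ((associated_unit_mul_left _ _ ((hw k l hne).map (s k.succ).pull)).trans
      ((hk k).pow_pow)).dvd
  refine ⟨⟨fun z N hz => (prime_of_notMem_sq h1 h2).dvd_of_dvd_pow hz, fun i j hij => ?_,
    ⟨1, ?_⟩⟩, h1, h2⟩
  · obtain ⟨l, rfl⟩ : ∃ l : Fin m, j = l.succ :=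
      ⟨j.pred (fun h6 => by rw [h6] at hij; exact absurd hij (Fin.not_lt_zero i)),
        (Fin.succ_pred _ _).symm⟩
    revert hij
    refine Fin.cases ?_ (fun k => ?_) i
    · intro _
      exact ⟨1, by rw [pow_one, h0]⟩
    · intro hij
      exact ⟨3, hkl k l (fun h6 => by rw [h6] at hij; exact lt_irrefl _ hij)⟩
  · rw [pow_one]
    have h5 : (s 0).pull y ∣ (s 0).pull (eXY x y w (Fin.succ ⟨0, hm⟩)) := by
      rw [h0]
    refine h5.trans ?_
    refine Dvd.dvd.trans ?_ (Finset.dvd_prod_of_mem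
      (fun i => ∏ j ∈ Finset.univ.filter (fun j => i < j), (s i).pull (eXY x y w j))
      (Finset.mem_univ (0 : Fin (m + 1))))
    exact Finset.dvd_prod_of_mem (fun j => (s 0).pull (eXY x y w j))
      (Finset.mem_filter.2 ⟨Finset.mem_univ _, Fin.succ_pos _⟩)

end

variable {K : Type} [Field K] [CharZero K] {𝒞 : ProjClass K}

/-- Equisingularity of `x ∏ (y - w_k x ^ 3) = 0` in three variables. -/
theorem equi_XY (h𝒞 : HasLin 𝒞) {m : ℕ} (hm : 0 < m) {f x y : MvPowerSeries (Fin 3) K}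
    (h : LI ![x, y]) (w : Fin m → MvPowerSeries (Fin 3) K)
    (hw : ∀ k l, k ≠ l → IsUnit (w k - w l))
    (hf : Associated f (x * ∏ k, (y - w k * x ^ 3))) {I : Ideal (MvPowerSeries (Fin 3) K)}
    (hI : CurveIdeal I) (hx : x ∈ I) (hy : y ∈ I) : Equi 𝒞 1 3 f I := by
  rw [← eXY_prod] at hf
  obtain ⟨p, ht, hl⟩ := exists_lin (eXY x y w) (eXY_smooth h w)
  have hs : ∀ i, Nonempty (Sec p (eXY x y w i)) := fun i =>
    exists_sec p _ (eXY_smooth h w i).1 (ht i)
  let s : ∀ i, Sec p (eXY x y w i) := fun i => (hs i).some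
  obtain ⟨hdisc, hm1, hm2⟩ := calcXY hm p h w hw s
  have hx' : eXY x y w 0 ∈ I := hx
  exact equi_of_disc h𝒞 p hl (fun i => (eXY_smooth h w i).1) ht hf hx' hdisc
    (equi_pos4 (Associated.refl _) hm1 hm2 (hI.img (eXY_smooth h w 0).1 hx' (ht 0))
      ((s 0).pull_mem_img hx' hy))

end Pool.Agent.Helper49.R2
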