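import Pool.Agent.Helper49.R2.Step2

/-! Equisingularity of the germ `D = x ∏ (y - w_k x ^ 3) = 0` in three variables along `x = y = 0`,
for the ten series `w_k` of the example. -/

namespace Pool.Agent.Helper49.R2

open MvPowerSeries Pool.Agent.Helper38.EQ Pool.Agent.Helper38.GP
open Pool.Agent.Helper38.ED (LI LI_iff)

/-- The constants of `w_k`. -/
def wα : Fin 10 → ℚ := ![0, 1, -1, -1 / 2, 1, 1, 2, 3 / 2, 4, 2]

/-- The coefficients of `(1 + t) ^ 2` in `w_k`. -/
def wβ : Fin 10 → ℚ := ![0, 0, 0, 0, 1 / 3, 1 / 5, 1 / 2, 1 / 4, 1, 1 / 3]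

/-- `w_k = α_k - β_k (1 + t) ^ 2`. -/
noncomputable def wK (K : Type) [Field K] (k : Fin 10) : MvPowerSeries (Fin 3) K :=
  C ((wα k : ℚ) : K) - C ((wβ k : ℚ) : K) * (1 + X 2) ^ 2

/-- `D = x ∏ (y - w_k x ^ 3)`. -/
noncomputable def exD (K : Type) [Field K] : MvPowerSeries (Fin 3) K :=
  X 0 * ∏ k, (X 1 - wK K k * X 0 ^ 3)

private theorem wαβ_inj (k l : Fin 10) (h : k ≠ l) : wα k - wβ k ≠ wα l - wβ l := by
  intro h1
  apply h
  revert h1
  fin_cases k <;> fin_cases l <;> norm_num [wα, wβ]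

variable {K : Type} [Field K] [CharZero K] {𝒞 : ProjClass K}

theorem wK_isUnit (k l : Fin 10) (h : k ≠ l) : IsUnit (wK K k - wK K l) := by
  rw [MvPowerSeries.isUnit_iff_constantCoeff, isUnit_iff_ne_zero]
  have h1 : ∀ k, constantCoeff (wK K k) = (((wα k - wβ k : ℚ)) : K) := fun k => by
    unfold wK
    rw [map_sub, map_mul, map_pow, map_add, map_one, constantCoeff_X, constantCoeff_C,
      constantCoeff_C, add_zero, one_pow, mul_one]
    push_cast
    rfl
  rw [map_sub, h1, h1, sub_ne_zero]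
  intro h2
  exact wαβ_inj k l h (Rat.cast_injective h2)

omit [CharZero K] in
theorem li_XY : LI ![(X 0 : MvPowerSeries (Fin 3) K), X 1] := by
  classical
  have hX : ∀ i j : Fin 3, coeff (Finsupp.single j 1) (X i : MvPowerSeries (Fin 3) K) =
      if j = i then 1 else 0 := by
    intro i j
    rw [coeff_X]
    by_cases h : j = i
    · rw [h, if_pos rfl, if_pos rfl]
    · rw [if_neg h, if_neg]
      intro h1
      exact h (Finsupp.single_left_injective one_ne_zero h1)
  refine ⟨fun i => ?_, ?_⟩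
  · fin_cases i
    · exact constantCoeff_X _
    · exact constantCoeff_X _
  · rw [Fintype.linearIndependent_iff]
    intro g hg
    have h1 : ∀ j : Fin 3, g 0 * (if j = 0 then 1 else 0) + g 1 * (if j = 1 then 1 else 0) =
        (0 : K) := by
      intro j
      have h2 := congrFun hg j
      rw [Finset.sum_apply, Fin.sum_univ_two] at h2
      rw [← hX, ← hX]
      exact h2
    intro i
    fin_cases i
    · simpa using h1 0
    · simpa using h1 1

/-- `D = 0` is equisingular along every curve in `x = y = 0`. -/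
theorem equi_exD (h𝒞 : HasLin 𝒞) {f : MvPowerSeries (Fin 3) K} (hf : Associated f (exD K))
    {I : Ideal (MvPowerSeries (Fin 3) K)} (hI : CurveIdeal I) (hx : X 0 ∈ I) (hy : X 1 ∈ I) :
    Equi 𝒞 1 3 f I :=
  equi_XY h𝒞 (by norm_num) li_XY (wK K) wK_isUnit hf hI hx hy

end Pool.Agent.Helper49.R2
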